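import Pool.Agent.Lib.MP_30b5b4_an.Final

open Pool.Agent.Lib.MP_30b5b4_an

theorem Pool.Agent.Results.MP_30b5b4_an.Sum.result {I E D : Type*}
    [NonUnitalCStarAlgebra I] [PartialOrder I] [StarOrderedRing I]
    [NonUnitalCStarAlgebra E] [PartialOrder E] [StarOrderedRing E]
    [NonUnitalCStarAlgebra D] [PartialOrder D] [StarOrderedRing D]
    (ι : I →⋆ₙₐ[ℂ] E) (π : E →⋆ₙₐ[ℂ] D) (hι : Function.Injective ι)
    (hπ : Function.Surjective π) (hex : ∀ x, π x = 0 ↔ x ∈ Set.range ι) :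
    nucDim E ≤ nucDim I + nucDim D :=
  Ext.nucDim_le_add ⟨hι, hπ, hex⟩
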